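import Pool.Agent.Helper48.FB.Defs

set_option autoImplicit false

/-!
# Project FB, piece B6: windows of a world by the multiplicities of the values of `σ`
-/

namespace Pool.Agent.Helper54.FB

open Finset
open Pool.Agent.Helper3.Thin (dig und off Lab GoodSet)
open Pool.Agent.Helper53.WR
open Pool.Agent.Helper48.FB

lemma card_Lab : Fintype.card Lab = 4096 := by
  simp [Lab]

lemma mem_win {A : Finset ℕ} {y h b : ℕ} : b ∈ win A y h ↔ b ∈ A ∧ y ≤ b ∧ b < y + h := by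
  unfold win
  exact mem_filter

lemma mem_World {q : ℕ} {Γ : Finset (ZMod q × ZMod q)} {T : Finset ℕ} {S : ℕ}
    {τ : ZMod q × ZMod q → ZMod q × ZMod q}
    {σ : (ZMod q × ZMod q) × (ZMod q × ZMod q) → ℕ} {b : ℕ} :
    b ∈ World Γ T S τ σ ↔ ∃ p ε t, p.1 ∈ Γ ∧ p.2 ∈ Γ ∧ t ∈ T ∧ elt S τ σ p ε t = b := by
  unfold World Ind
  rw [mem_image]
  constructor
  · rintro ⟨x, hx, h⟩
    rw [mem_product, mem_product, mem_product] at hx
    exact ⟨x.1.1, x.1.2, x.2, hx.1.1.1, hx.1.1.2, hx.2, h⟩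
  · rintro ⟨p, ε, t, h1, h2, h3, h⟩
    refine ⟨((p, ε), t), ?_, h⟩
    rw [mem_product, mem_product, mem_product]
    exact ⟨⟨⟨h1, h2⟩, mem_univ _⟩, h3⟩

/-- The position of an element of a window. -/
lemma key_win {q : ℕ} [Fact q.Prime] {Γ : Finset (ZMod q × ZMod q)} {T : Finset ℕ}
    {S : ℕ} {τ : ZMod q × ZMod q → ZMod q × ZMod q}
    {σ : (ZMod q × ZMod q) × (ZMod q × ZMod q) → ℕ} (hσ : ∀ p, σ p < S) {y h b : ℕ}
    (hb : b ∈ win (World Γ T S τ σ) y h) :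
    ∃ (ε : Lab) (Z t : ℕ) (p : (ZMod q × ZMod q) × (ZMod q × ZMod q)),
      (y - off q ε) / q ^ 4 ≤ Z ∧ Z < (y - off q ε) / q ^ 4 + (h / q ^ 4 + 2) ∧
      t ∈ win T (Z + 1 - 2 * S) S ∧ p ∈ (Γ ×ˢ Γ).filter (fun p => σ p = Z - S - t) ∧
      elt S τ σ p ε t = b := by
  have hq : 0 < q ^ 4 := pow_pos (Fact.out : q.Prime).pos 4
  obtain ⟨hbW, hb1, hb2⟩ := mem_win.1 hb
  obtain ⟨p, ε, t, hp1, hp2, ht, hbe⟩ := mem_World.1 hbW
  have hs := hσ p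
  have hu := Pool.Agent.Helper3.Thin.und_lt p.1 (p.2 + τ p.1)
  rw [← hbe] at hb1 hb2
  simp only [elt] at hb1 hb2
  generalize ho : off q ε = o at hb1 hb2
  generalize hun : und p.1 (p.2 + τ p.1) = un at hb1 hb2 hu
  obtain ⟨Z, hZ⟩ : ∃ Z, Z = S + σ p + t := ⟨_, rfl⟩
  rw [← hZ] at hb1 hb2
  have hZ1 : (y - o) / q ^ 4 ≤ Z := by
    refine Nat.lt_succ_iff.1 ((Nat.div_lt_iff_lt_mul hq).2 ?_)
    have : (Z + 1) * q ^ 4 = q ^ 4 * Z + q ^ 4 := by ring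
    rw [Nat.succ_eq_add_one, this]
    omega
  have hZ2 : Z < (y - o) / q ^ 4 + (h / q ^ 4 + 2) := by
    have h1 : q ^ 4 * Z < (y - o) + h := by omega
    have h2 : y - o < q ^ 4 * ((y - o) / q ^ 4 + 1) := by
      have := Nat.lt_mul_div_succ (y - o) hq
      simpa using this
    have h3 : h < q ^ 4 * (h / q ^ 4 + 1) := by
      have := Nat.lt_mul_div_succ h hq
      simpa using this
    have h4 : q ^ 4 * Z < q ^ 4 * ((y - o) / q ^ 4 + (h / q ^ 4 + 2)) := by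
      calc q ^ 4 * Z < (y - o) + h := h1
        _ ≤ q ^ 4 * ((y - o) / q ^ 4 + 1) + q ^ 4 * (h / q ^ 4 + 1) := by omega
        _ = q ^ 4 * ((y - o) / q ^ 4 + (h / q ^ 4 + 2)) := by ring
    exact lt_of_mul_lt_mul_left h4 (Nat.zero_le _)
  refine ⟨ε, Z, t, p, ?_, ?_, ?_, ?_, hbe⟩
  · rw [ho]; exact hZ1
  · rw [ho]; exact hZ2
  · refine mem_win.2 ⟨ht, ?_, ?_⟩ <;> omega
  · rw [mem_filter, mem_product]
    exact ⟨⟨hp1, hp2⟩, by omega⟩

/-- FB-B6 (windows of a world, using the multiplicities of the values of `σ`). -/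
theorem world_win_mid {q : ℕ} [Fact q.Prime] (Γ : Finset (ZMod q × ZMod q)) (T : Finset ℕ)
    (S yS W : ℕ) (τ : ZMod q × ZMod q → ZMod q × ZMod q)
    (σ : (ZMod q × ZMod q) × (ZMod q × ZMod q) → ℕ) (hσ : ∀ p, σ p < S)
    (hy : ∀ s, ((Γ ×ˢ Γ).filter (fun p => σ p = s)).card ≤ yS) (y h : ℕ)
    (hW : ∀ z, (win T z S).card ≤ W) :
    (win (World Γ T S τ σ) y h).card ≤ 4096 * ((h / q ^ 4 + 2) * yS * W) := by
  classical
  obtain ⟨L, hLm, hLc⟩ : ∃ L : Finset Lab, (∀ ε, ε ∈ L) ∧ L.card = 4096 :=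
    ⟨univ, mem_univ, by rw [card_univ, card_Lab]⟩
  have hsub : win (World Γ T S τ σ) y h ⊆ L.biUnion (fun ε =>
      (Ico ((y - off q ε) / q ^ 4) ((y - off q ε) / q ^ 4 + (h / q ^ 4 + 2))).biUnion (fun Z =>
        (win T (Z + 1 - 2 * S) S).biUnion (fun t =>
          ((Γ ×ˢ Γ).filter (fun p => σ p = Z - S - t)).image (fun p => elt S τ σ p ε t)))) := by
    intro b hb
    obtain ⟨ε, Z, t, p, h1, h2, h3, h4, h5⟩ := key_win hσ hb
    exact mem_biUnion.2 ⟨ε, hLm ε, mem_biUnion.2 ⟨Z, mem_Ico.2 ⟨h1, h2⟩,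
      mem_biUnion.2 ⟨t, h3, mem_image.2 ⟨p, h4, h5⟩⟩⟩⟩
  refine (card_le_card hsub).trans ?_
  have hin : ∀ (ε : Lab) (Z t : ℕ),
      (((Γ ×ˢ Γ).filter (fun p => σ p = Z - S - t)).image (fun p => elt S τ σ p ε t)).card ≤ yS :=
    fun ε Z t => card_image_le.trans (hy _)
  refine (card_biUnion_le_card_mul _ _ ((h / q ^ 4 + 2) * yS * W) (fun ε _ => ?_)).trans ?_
  · refine (card_biUnion_le_card_mul _ _ (W * yS) (fun Z _ => ?_)).trans ?_
    · refine (card_biUnion_le_card_mul _ _ yS (fun t _ => hin ε Z t)).trans ?_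
      exact Nat.mul_le_mul_right _ (hW _)
    · rw [Nat.card_Ico, Nat.add_sub_cancel_left]
      exact le_of_eq (by ring)
  · rw [hLc]

end Pool.Agent.Helper54.FB
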